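import Pool.Agent.W539.Mot.Cor

/-!
# Orlov's conjecture: inertia of the Mukai form on correspondences

Let `X`, `X'` be smooth projective varieties of dimension `n` with equivalent derived categories.
The Mukai vector of the kernel of the equivalence is a class `F` of a correspondence of mixed
degree with `σ F = F⁻¹` (structure `IsFM`). On every left ideal `T` of the algebra `E` of
correspondences of `X ⊔ X'` the form `trace (x^t δ y s)` is invariant under `F`; its inertia is
computed by the Hodge standard conjecture (a theorem in characteristic zero) and hard Lefschetz.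
This gives the equality of the multiplicities of all simple motives in
`⊕_{i ≥ 0} h^{n - 2 - 4 i}` and in `⊕_{i ∈ ℤ} h^{n + 4 i}` for `X` and `X'`, which together with
the parity statement for `⊕_{i ≥ 0} h^{n - 1 - 2 i}` determines the motive of `X'` from that of
`X` up to the degrees `≤ n - 3`; so completely for `n ≤ 4`.
-/

namespace Pool.Agent.Results.MP_5c0b30_ag.InertiaMotives

open Pool.Agent.W539.Mot

theorem result :
    (∀ (n : ℕ) (D : HomMot n) (F : Module.End ℚ D.V), D.IsFM F →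
      (D.IsoSum (I1 n) ∧ D.IsoSum (I2 n) ∧ D.IsoSum (I3 n)) ∧
      (2 ≤ n → n ≤ 5 → D.IsoDeg (n - 2)) ∧
      ((∀ k : ℤ, 0 ≤ k → k ≤ n - 3 → D.IsoDeg k) → ∀ k : ℤ, D.IsoDeg k)) ∧
    (∀ (n : ℕ) (D : HomMot n) (I : Finset ℤ) (k : ℤ), k ∈ I → D.IsoSum I →
      (∀ l ∈ I, l ≠ k → D.IsoDeg l) → D.IsoDeg k) ∧
    (∀ (n : ℕ) (D : ChowMot n) (F : Module.End ℚ D.V), D.IsFM F →
      (∀ k : ℤ, 0 ≤ k → k ≤ n - 3 → D.IsoDeg k) → D.Iso) :=
  ⟨fun _ D _ h => ⟨⟨h.iso1, h.iso2, h.iso3⟩, HomMot.IsFM.low D h, h.isoDeg⟩,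
    fun _ D I k hk h h' => D.cancel I k hk h h',
    fun _ D _ h hlow => D.lift (h.isoDeg hlow)⟩

end Pool.Agent.Results.MP_5c0b30_ag.InertiaMotives
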